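import Mathlib

/-!
# KE-T1: counting lattices by the first vector of a basis, with different scales
-/

set_option autoImplicit false

open Finset

namespace Pool.Agent.Y319.KE

section

variable {ι : Type} [Fintype ι]

theorem box (L : ι → ℝ) (hL : ∀ i, 0 ≤ L i) : {z : ι → ℤ | ∀ i, |(z i : ℝ)| ≤ L i}.Finite ∧
    ({z : ι → ℤ | ∀ i, |(z i : ℝ)| ≤ L i}.ncard : ℝ) ≤ ∏ i, (2 * L i + 1) := by
  classical
  have h : {z : ι → ℤ | ∀ i, |(z i : ℝ)| ≤ L i} =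
      ↑(Fintype.piFinset fun i => Finset.Icc (-⌊L i⌋) ⌊L i⌋) := by
    ext z
    simp only [Set.mem_ofPred_eq, Finset.mem_coe, Fintype.mem_piFinset, Finset.mem_Icc]
    refine forall_congr' fun i => ?_
    rw [abs_le]
    constructor
    · rintro ⟨h1, h2⟩
      have h3 : -z i ≤ ⌊L i⌋ := Int.le_floor.2 (by push_cast; linarith)
      exact ⟨by omega, Int.le_floor.2 h2⟩
    · rintro ⟨h1, h2⟩
      have h3 : -z i ≤ ⌊L i⌋ := by omega
      rw [Int.le_floor] at h3 h2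
      push_cast at h3
      exact ⟨by linarith, h2⟩
  rw [h]
  refine ⟨Finset.finite_toSet _, ?_⟩
  rw [Set.ncard_coe_finset, Fintype.card_piFinset]
  push_cast
  refine Finset.prod_le_prod (fun i _ => by positivity) fun i _ => ?_
  rw [Int.card_Icc]
  have h0 : 0 ≤ ⌊L i⌋ := Int.floor_nonneg.2 (hL i)
  have h1 : (((⌊L i⌋ + 1 - -⌊L i⌋).toNat : ℕ) : ℝ) = 2 * (⌊L i⌋ : ℝ) + 1 := by
    have : ((⌊L i⌋ + 1 - -⌊L i⌋).toNat : ℤ) = 2 * ⌊L i⌋ + 1 := by
      rw [Int.toNat_of_nonneg (by omega)]; ring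
    exact_mod_cast this
  rw [h1]
  have := Int.floor_le (L i)
  linarith

theorem dyad {α : Type} (Z : Finset α) (N : α → ℝ) {K X : ℝ} (hK : 0 ≤ K) {p q : ℕ}
    (hpq : q < p) (hX : 0 < X) (hN : ∀ z ∈ Z, 0 < N z ∧ N z ≤ X)
    (h : ∀ A : ℝ, 0 < A → ((Z.filter fun z => N z ≤ A).card : ℝ) ≤ K * A ^ p) :
    ∑ z ∈ Z, (N z ^ q)⁻¹ ≤ 2 ^ (q + 1) * K * X ^ (p - q) := by
  classical
  have hlev : ∀ z, ∃ k : ℕ, z ∈ Z → X / 2 ^ (k + 1) < N z ∧ N z ≤ X / 2 ^ k := by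
    intro z
    by_cases hz : z ∈ Z
    · obtain ⟨h0, h1⟩ := hN z hz
      have hex : ∃ k : ℕ, X / 2 ^ (k + 1) < N z := by
        obtain ⟨k, hk⟩ := pow_unbounded_of_one_lt (X / N z) (one_lt_two (α := ℝ))
        refine ⟨k, ?_⟩
        rw [div_lt_iff₀ h0] at hk
        rw [div_lt_iff₀ (by positivity), pow_succ]
        nlinarith
      refine ⟨Nat.find hex, fun _ => ⟨Nat.find_spec hex, ?_⟩⟩
      rcases Nat.eq_zero_or_pos (Nat.find hex) with h2 | h2
      · rw [h2, pow_zero, div_one]; exact h1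
      · obtain ⟨m, hm⟩ : ∃ m, Nat.find hex = m + 1 := ⟨_, (Nat.succ_pred_eq_of_pos h2).symm⟩
        have := Nat.find_min hex (m := m) (by omega)
        rw [hm]; exact not_lt.1 this
    · exact ⟨0, fun h => absurd h hz⟩
  choose lv hlv using hlev
  rw [← Finset.sum_fiberwise_of_maps_to (s := Z) (t := Z.image lv) (g := lv)
    (fun z hz => Finset.mem_image_of_mem _ hz)]
  have hk : ∀ k ∈ Z.image lv, ∑ z ∈ Z.filter (fun z => lv z = k), (N z ^ q)⁻¹ ≤
      2 ^ q * K * X ^ (p - q) * (1 / 2) ^ k := by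
    intro k hk
    have h1 : ∀ z ∈ Z.filter (fun z => lv z = k), (N z ^ q)⁻¹ ≤ ((X / 2 ^ (k + 1)) ^ q)⁻¹ := by
      intro z hz
      rw [Finset.mem_filter] at hz
      obtain ⟨h2, h3⟩ := hlv z hz.1
      rw [hz.2] at h2
      have : 0 < X / 2 ^ (k + 1) := by positivity
      gcongr
    refine (Finset.sum_le_card_nsmul _ _ _ h1).trans ?_
    rw [nsmul_eq_mul]
    have h4 : ((Z.filter (fun z => lv z = k)).card : ℝ) ≤ K * (X / 2 ^ k) ^ p := by
      refine le_trans ?_ (h (X / 2 ^ k) (by positivity))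
      have : (Z.filter (fun z => lv z = k)) ⊆ (Z.filter fun z => N z ≤ X / 2 ^ k) := by
        intro z hz
        rw [Finset.mem_filter] at hz ⊢
        have := (hlv z hz.1).2
        rw [hz.2] at this
        exact ⟨hz.1, this⟩
      exact_mod_cast Finset.card_le_card this
    obtain ⟨r, rfl⟩ : ∃ r, p = q + r := ⟨p - q, by omega⟩
    have hr : 1 ≤ r := by omega
    rw [Nat.add_sub_cancel_left]
    calc _ ≤ K * (X / 2 ^ k) ^ (q + r) * ((X / 2 ^ (k + 1)) ^ q)⁻¹ := by gcongr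
      _ = 2 ^ q * K * X ^ r * ((1 / 2) ^ k) ^ r := by
        have hu : ((1 / 2 : ℝ) ^ k) ^ r = ((2 ^ k) ^ r)⁻¹ := by rw [one_div, inv_pow, inv_pow]
        rw [pow_succ, ← div_div, pow_add, div_pow (X / 2 ^ k) 2 q, hu, div_pow X _ r]
        have : (0 : ℝ) < (X / 2 ^ k) ^ q := by positivity
        field_simp
      _ ≤ 2 ^ q * K * X ^ r * (1 / 2) ^ k := by
        have : ((1 / 2 : ℝ) ^ k) ^ r ≤ (1 / 2) ^ k :=
          pow_le_of_le_one (by positivity) (pow_le_one₀ (by norm_num) (by norm_num)) (by omega)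
        gcongr
  refine (Finset.sum_le_sum hk).trans ?_
  rw [← Finset.mul_sum]
  have h5 : ∑ k ∈ Z.image lv, (1 / 2 : ℝ) ^ k ≤ 2 := by
    have := summable_geometric_two.sum_le_tsum (Z.image lv) (fun i _ => by positivity)
    rwa [tsum_geometric_two] at this
  calc 2 ^ q * K * X ^ (p - q) * ∑ k ∈ Z.image lv, (1 / 2 : ℝ) ^ k ≤
      2 ^ q * K * X ^ (p - q) * 2 := by gcongr
    _ = _ := by rw [pow_succ]; ring

/-- weighted norm -/
noncomputable def Nw (Y : ι → ℝ) (z : ι → ℤ) : ℝ := ‖fun i => (z i : ℝ) / Y i‖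

theorem abs_le_Nw {Y : ι → ℝ} (hY : ∀ i, 0 < Y i) (z : ι → ℤ) (i : ι) :
    |(z i : ℝ)| ≤ Nw Y z * Y i := by
  have := norm_le_pi_norm (fun i => (z i : ℝ) / Y i) i
  rw [norm_div, Real.norm_eq_abs, Real.norm_eq_abs, abs_of_pos (hY i), div_le_iff₀ (hY i)] at this
  exact this

theorem Nw_add_nsmul {Y : ι → ℝ} (z w : ι → ℤ) (j : ℕ) :
    Nw Y (w + j • z) ≤ Nw Y w + j * Nw Y z := by
  unfold Nw
  have e0 : ∀ i, (w + j • z) i = w i + (j : ℤ) * z i := fun i => by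
    rw [Pi.add_apply, Pi.smul_apply, nsmul_eq_mul]
  have e : (fun i => ((w + j • z) i : ℝ) / Y i) =
      (fun i => (w i : ℝ) / Y i) + (j : ℝ) • (fun i => (z i : ℝ) / Y i) := by
    funext i
    rw [e0]
    simp only [Pi.add_apply, Pi.smul_apply, smul_eq_mul]
    push_cast
    ring
  rw [e]
  refine (norm_add_le _ _).trans ?_
  rw [norm_smul, Real.norm_eq_abs, abs_of_nonneg (Nat.cast_nonneg j)]

theorem count {q : ℕ} (hq : Fintype.card ι = q + 2) (Y : ι → ℝ) (hY : ∀ i, 0 < Y i)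
    {T : Type} (G : (ι → ℤ) → (ι → ℤ) → T) (hG : ∀ z w (j : ℕ), G z (w + j • z) = G z w)
    {B X K : ℝ} (hB : 0 < B) (hX : 0 < X) (hK : 0 ≤ K) (𝒵 : Set (ι → ℤ)) {p : ℕ} (hp : q < p)
    (h𝒵 : ∀ A : ℝ, 0 < A → {z | z ∈ 𝒵 ∧ Nw Y z ≤ A}.Finite ∧
      ({z | z ∈ 𝒵 ∧ Nw Y z ≤ A}.ncard : ℝ) ≤ K * A ^ p)
    (S : Set T) (hS : ∀ M ∈ S, ∃ z w, G z w = M ∧ z ∈ 𝒵 ∧ 0 < Nw Y z ∧ Nw Y z * Nw Y w ≤ B ∧
      Nw Y z ^ 2 ≤ B ∧ Nw Y z ≤ X ∧ ∀ i, Nw Y z ≤ B * Y i) :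
    S.Finite ∧ (S.ncard : ℝ) ≤
      (5 ^ (q + 2) * B ^ (q + 1) * ∏ i, Y i) * (2 ^ (q + 1) * K * X ^ (p - q)) := by
  classical
  have hwbox : ∀ R : ℝ, 0 ≤ R → {w : ι → ℤ | ∀ i, |(w i : ℝ)| ≤ R * Y i}.Finite := fun R hR =>
    (box (fun i => R * Y i) fun i => mul_nonneg hR (hY i).le).1
  have hfin : S.Finite := by
    refine ((h𝒵 X hX).1.biUnion (t := fun z => G z '' {w : ι → ℤ | ∀ i, |(w i : ℝ)| ≤
      (B / Nw Y z) * Y i}) fun z hz => ((hwbox (B / Nw Y z)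
        (div_nonneg hB.le (norm_nonneg _))).image _)).subset ?_
    intro M hM
    obtain ⟨z, w, h1, h2, h3, h4, h5, h6, h7⟩ := hS M hM
    refine Set.mem_iUnion₂.2 ⟨z, ⟨h2, h6⟩, w, fun i => ?_, h1⟩
    refine (abs_le_Nw hY w i).trans ?_
    have h8 : Nw Y w ≤ B / Nw Y z := by rw [le_div_iff₀ h3]; linarith
    exact mul_le_mul_of_nonneg_right h8 (hY i).le
  refine ⟨hfin, ?_⟩
  have hch : ∀ M : T, ∃ z w, M ∈ S → (G z w = M ∧ z ∈ 𝒵 ∧ 0 < Nw Y z ∧ Nw Y z * Nw Y w ≤ B ∧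
      Nw Y z ^ 2 ≤ B ∧ Nw Y z ≤ X ∧ ∀ i, Nw Y z ≤ B * Y i) := by
    intro M
    by_cases hM : M ∈ S
    · obtain ⟨z, w, h⟩ := hS M hM
      exact ⟨z, w, fun _ => h⟩
    · exact ⟨0, 0, fun h => absurd h hM⟩
  choose zf wf hzw using hch
  set F := hfin.toFinset with hF
  have hmem : ∀ M, M ∈ F ↔ M ∈ S := fun M => hfin.mem_toFinset
  rw [Set.ncard_eq_toFinset_card S hfin]
  set Z := F.image zf with hZ
  have hZm : ∀ z ∈ Z, z ∈ 𝒵 ∧ 0 < Nw Y z ∧ Nw Y z ^ 2 ≤ B ∧ Nw Y z ≤ X ∧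
      ∀ i, Nw Y z ≤ B * Y i := by
    intro z hz
    obtain ⟨M, hM, rfl⟩ := mem_image.1 hz
    obtain ⟨-, h2, h3, -, h5, h6, h7⟩ := hzw M ((hmem M).1 hM)
    exact ⟨h2, h3, h5, h6, h7⟩
  have hcard : F.card = ∑ z ∈ Z, (F.filter fun M => zf M = z).card :=
    card_eq_sum_card_fiberwise fun M hM => mem_image_of_mem zf hM
  have hPY : 0 < ∏ i, Y i := Finset.prod_pos fun i _ => hY i
  have hfib : ∀ z ∈ Z, ((F.filter fun M => zf M = z).card : ℝ) ≤
      (5 ^ (q + 2) * B ^ (q + 1) * ∏ i, Y i) * (Nw Y z ^ q)⁻¹ := by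
    intro z hz
    obtain ⟨-, hz1, hz2, -, hz4⟩ := hZm z hz
    set R := B / Nw Y z with hR
    have hRpos : 0 < R := by positivity
    have hRz : R * Nw Y z = B := by rw [hR]; field_simp
    have hRY : ∀ i, 1 ≤ R * Y i := by
      intro i
      rw [hR, div_mul_eq_mul_div, le_div_iff₀ hz1, one_mul]
      exact hz4 i
    obtain ⟨g1, g2⟩ := box (fun i => 2 * R * Y i) fun i => by
      have := hY i
      positivity
    set J := ⌊R / Nw Y z⌋₊ + 1 with hJ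
    have hz0 : z ≠ 0 := by
      rintro rfl
      have h0 : (fun i => (((0 : ι → ℤ) i : ℤ) : ℝ) / Y i) = 0 := by
        funext i
        simp
      unfold Nw at hz1
      rw [h0, norm_zero] at hz1
      exact lt_irrefl _ hz1
    have hle : ((F.filter fun M => zf M = z) ×ˢ range J).card ≤ g1.toFinset.card := by
      refine card_le_card_of_injOn (fun q => wf q.1 + q.2 • z) ?_ ?_
      · rintro ⟨M, j⟩ hMj
        simp only [coe_product, Set.mem_prod, mem_coe, mem_filter, mem_range] at hMj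
        obtain ⟨⟨hM, hMz⟩, hj⟩ := hMj
        obtain ⟨-, -, -, hw, -⟩ := hzw M ((hmem M).1 hM)
        rw [hMz] at hw
        rw [Set.Finite.coe_toFinset]
        intro i
        refine (abs_le_Nw hY _ i).trans ?_
        refine mul_le_mul_of_nonneg_right ((Nw_add_nsmul z (wf M) j).trans ?_) (hY i).le
        have hw' : Nw Y (wf M) ≤ R := by rw [hR, le_div_iff₀ hz1]; linarith
        have hj' : (j : ℝ) ≤ R / Nw Y z := by
          have : j ≤ ⌊R / Nw Y z⌋₊ := by omega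
          exact (Nat.le_floor_iff (by positivity)).1 this
        rw [le_div_iff₀ hz1] at hj'
        linarith
      · rintro ⟨M, j⟩ hMj ⟨M', j'⟩ hMj' heq
        simp only [coe_product, Set.mem_prod, mem_coe, mem_filter, mem_range] at hMj hMj'
        obtain ⟨⟨hM, hMz⟩, hj⟩ := hMj
        obtain ⟨⟨hM', hMz'⟩, hj'⟩ := hMj'
        simp only at heq
        have e1 := (hzw M ((hmem M).1 hM)).1
        have e2 := (hzw M' ((hmem M').1 hM')).1
        rw [hMz] at e1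
        rw [hMz'] at e2
        have e3 : M = M' := by
          rw [← e1, ← e2, ← hG z (wf M) j, heq, hG]
        subst e3
        have e4 : j • z = j' • z := add_left_cancel heq
        have e5 : j = j' := by
          obtain ⟨i, hi⟩ := Function.ne_iff.1 hz0
          have := congrFun e4 i
          simp only [Pi.smul_apply, nsmul_eq_mul] at this
          have h6 := mul_right_cancel₀ hi this
          exact_mod_cast h6
        rw [e5]
    rw [card_product, card_range, ← Set.ncard_eq_toFinset_card _ g1] at hle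
    have hle' : ((F.filter fun M => zf M = z).card : ℝ) * (R / Nw Y z) ≤
        (5 * R) ^ (q + 2) * ∏ i, Y i := by
      have h3 : (R / Nw Y z : ℝ) ≤ (J : ℝ) := by
        rw [hJ]; push_cast; exact (Nat.lt_floor_add_one _).le
      calc ((F.filter fun M => zf M = z).card : ℝ) * (R / Nw Y z) ≤
          ((F.filter fun M => zf M = z).card : ℝ) * J := by gcongr
        _ ≤ ({z : ι → ℤ | ∀ i, |(z i : ℝ)| ≤ 2 * R * Y i}.ncard : ℝ) := by exact_mod_cast hle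
        _ ≤ ∏ i, (2 * (2 * R * Y i) + 1) := g2
        _ ≤ ∏ i, (5 * R * Y i) := by
          refine Finset.prod_le_prod (fun i _ => ?_) fun i _ => ?_
          · have := hY i
            positivity
          · have := hRY i
            nlinarith
        _ = (5 * R) ^ (q + 2) * ∏ i, Y i := by
          rw [Finset.prod_mul_distrib, Finset.prod_const, Finset.card_univ, hq]
    have h5 : 0 < R / Nw Y z := by positivity
    have h4 : (5 ^ (q + 2) * B ^ (q + 1) * ∏ i, Y i) * (Nw Y z ^ q)⁻¹ * (R / Nw Y z) =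
        (5 * R) ^ (q + 2) * ∏ i, Y i := by
      rw [← hRz, mul_pow R, mul_pow 5 R]
      field_simp
      ring
    rw [← h4] at hle'
    exact le_of_mul_le_mul_right hle' h5
  rw [hcard]
  push_cast
  refine (sum_le_sum hfib).trans ?_
  rw [← mul_sum]
  refine mul_le_mul_of_nonneg_left ?_ (by positivity)
  refine dyad Z (Nw Y) hK hp hX (fun z hz => ⟨(hZm z hz).2.1, (hZm z hz).2.2.2.1⟩) fun A hA => ?_
  obtain ⟨g1, g2⟩ := h𝒵 A hA
  refine le_trans ?_ g2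
  rw [Set.ncard_eq_toFinset_card _ g1]
  have : (Z.filter fun z => Nw Y z ≤ A) ⊆ g1.toFinset := by
    intro z hz
    rw [Finset.mem_filter] at hz
    rw [Set.Finite.mem_toFinset]
    exact ⟨(hZm z hz.1).1, hz.2⟩
  exact_mod_cast Finset.card_le_card this

end

section sigma

variable {s : Type} [Fintype s] [DecidableEq s] (d : s → ℕ) (Y : s → ℝ)

theorem one_le_Nw {d : s → ℕ} {Y : s → ℝ} (hY : ∀ i, 0 < Y i) {z : (Σ i, Fin (d i)) → ℤ} {i : s}
    {k : Fin (d i)} (h : z ⟨i, k⟩ ≠ 0) : 1 ≤ Nw (fun x => Y x.1) z * Y i := by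
  refine le_trans ?_ (abs_le_Nw (Y := fun x : (Σ i, Fin (d i)) => Y x.1) (fun x => hY x.1) z ⟨i, k⟩)
  have : (1 : ℤ) ≤ |z ⟨i, k⟩| := Int.one_le_abs h
  exact_mod_cast this

theorem zA (hY : ∀ i, 0 < Y i) (A : ℝ) (hA : 0 < A) :
    {z : (Σ i, Fin (d i)) → ℤ | z ∈ {z : (Σ i, Fin (d i)) → ℤ | ∀ i, ∃ k, z ⟨i, k⟩ ≠ 0} ∧
      Nw (fun x => Y x.1) z ≤ A}.Finite ∧
    ({z : (Σ i, Fin (d i)) → ℤ | z ∈ {z : (Σ i, Fin (d i)) → ℤ | ∀ i, ∃ k, z ⟨i, k⟩ ≠ 0} ∧
      Nw (fun x => Y x.1) z ≤ A}.ncard : ℝ) ≤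
      (3 ^ Fintype.card (Σ i, Fin (d i)) * ∏ x : (Σ i, Fin (d i)), Y x.1) *
        A ^ Fintype.card (Σ i, Fin (d i)) := by
  have hY' : ∀ x : (Σ i, Fin (d i)), 0 < Y x.1 := fun x => hY x.1
  obtain ⟨g1, g2⟩ := box (fun x : (Σ i, Fin (d i)) => A * Y x.1) fun x => by
    have := hY' x
    positivity
  have hsub : {z : (Σ i, Fin (d i)) → ℤ | z ∈ {z : (Σ i, Fin (d i)) → ℤ | ∀ i, ∃ k, z ⟨i, k⟩ ≠ 0} ∧
      Nw (fun x => Y x.1) z ≤ A} ⊆ {z : (Σ i, Fin (d i)) → ℤ | ∀ x, |(z x : ℝ)| ≤ A * Y x.1} := by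
    rintro z ⟨-, h2⟩ x
    exact (abs_le_Nw hY' z x).trans (mul_le_mul_of_nonneg_right h2 (hY' x).le)
  refine ⟨g1.subset hsub, ?_⟩
  by_cases hall : ∀ i, 1 ≤ A * Y i
  · refine le_trans (b := ({z : (Σ i, Fin (d i)) → ℤ | ∀ x, |(z x : ℝ)| ≤ A * Y x.1}.ncard : ℝ))
      (by exact_mod_cast Set.ncard_le_ncard hsub g1) (g2.trans ?_)
    calc ∏ x : (Σ i, Fin (d i)), (2 * (A * Y x.1) + 1) ≤ ∏ x : (Σ i, Fin (d i)), (3 * Y x.1 * A) := by
          refine Finset.prod_le_prod (fun x _ => ?_) fun x _ => ?_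
          · have := hY' x
            positivity
          · have := hall x.1
            nlinarith
      _ = _ := by
          rw [Finset.prod_mul_distrib, Finset.prod_mul_distrib, Finset.prod_const,
            Finset.prod_const, Finset.card_univ]
  · push Not at hall
    obtain ⟨i, hi⟩ := hall
    have : {z : (Σ i, Fin (d i)) → ℤ | z ∈ {z : (Σ i, Fin (d i)) → ℤ | ∀ i, ∃ k, z ⟨i, k⟩ ≠ 0} ∧
        Nw (fun x => Y x.1) z ≤ A} = ∅ := by
      rw [Set.eq_empty_iff_forall_notMem]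
      rintro z ⟨h1, h2⟩
      obtain ⟨k, hk⟩ := h1 i
      have h3 := one_le_Nw hY hk
      have h4 := mul_le_mul_of_nonneg_right h2 (hY i).le
      linarith
    rw [this, Set.ncard_empty]
    have h5 : 0 < ∏ x : (Σ i, Fin (d i)), Y x.1 := Finset.prod_pos fun x _ => hY' x
    push_cast
    positivity

theorem zB (hY : ∀ i, 0 < Y i) (j : s) (hj : d j = 1) {m : ℕ}
    (hm : Fintype.card (Σ i, Fin (d i)) = m + 1) (A : ℝ) (hA : 0 < A) :
    {z : (Σ i, Fin (d i)) → ℤ | z ∈ {z : (Σ i, Fin (d i)) → ℤ | (∀ k, z ⟨j, k⟩ = 0) ∧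
      ∀ i, i ≠ j → ∃ k, z ⟨i, k⟩ ≠ 0} ∧ Nw (fun x => Y x.1) z ≤ A}.Finite ∧
    ({z : (Σ i, Fin (d i)) → ℤ | z ∈ {z : (Σ i, Fin (d i)) → ℤ | (∀ k, z ⟨j, k⟩ = 0) ∧
      ∀ i, i ≠ j → ∃ k, z ⟨i, k⟩ ≠ 0} ∧ Nw (fun x => Y x.1) z ≤ A}.ncard : ℝ) ≤
      (3 ^ m * (∏ x : (Σ i, Fin (d i)), Y x.1) / Y j) * A ^ m := by
  have hY' : ∀ x : (Σ i, Fin (d i)), 0 < Y x.1 := fun x => hY x.1
  obtain ⟨g1, g2⟩ := box (fun x : (Σ i, Fin (d i)) => if x.1 = j then 0 else A * Y x.1) fun x => by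
    have := hY' x
    split_ifs
    · exact le_rfl
    · positivity
  have hsub : {z : (Σ i, Fin (d i)) → ℤ | z ∈ {z : (Σ i, Fin (d i)) → ℤ | (∀ k, z ⟨j, k⟩ = 0) ∧
      ∀ i, i ≠ j → ∃ k, z ⟨i, k⟩ ≠ 0} ∧ Nw (fun x => Y x.1) z ≤ A} ⊆
      {z : (Σ i, Fin (d i)) → ℤ | ∀ x, |(z x : ℝ)| ≤ if x.1 = j then 0 else A * Y x.1} := by
    rintro z ⟨⟨h1, -⟩, h2⟩ ⟨i, k⟩
    by_cases hij : i = j
    · subst hij
      simp [h1 k]
    · simp only [if_neg hij]
      exact (abs_le_Nw hY' z ⟨i, k⟩).trans (mul_le_mul_of_nonneg_right h2 (hY i).le)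
  refine ⟨g1.subset hsub, ?_⟩
  by_cases hall : ∀ i, i ≠ j → 1 ≤ A * Y i
  · refine le_trans (b := ({z : (Σ i, Fin (d i)) → ℤ | ∀ x, |(z x : ℝ)| ≤
      if x.1 = j then 0 else A * Y x.1}.ncard : ℝ))
      (by exact_mod_cast Set.ncard_le_ncard hsub g1) (g2.trans ?_)
    have h3 : ∏ x : (Σ i, Fin (d i)), (2 * (if x.1 = j then 0 else A * Y x.1) + 1) ≤
        ∏ x : (Σ i, Fin (d i)), (if x.1 = j then 1 else 3 * A * Y x.1) := by
      refine Finset.prod_le_prod (fun x _ => ?_) fun x _ => ?_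
      · have := hY' x
        split_ifs <;> positivity
      · split_ifs with hx
        · norm_num
        · have := hall x.1 hx
          linarith
    refine h3.trans ?_
    have h4 : (∏ x : (Σ i, Fin (d i)), (if x.1 = j then 1 else 3 * A * Y x.1)) * (3 * A * Y j) =
        (3 * A) ^ (m + 1) * ∏ x : (Σ i, Fin (d i)), Y x.1 := by
      have h5 : ∏ x : (Σ i, Fin (d i)), (if x.1 = j then 3 * A * Y x.1 else 1) = 3 * A * Y j := by
        rw [Fintype.prod_sigma]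
        have : ∀ i, ∏ k : Fin (d i), (if (⟨i, k⟩ : Σ i, Fin (d i)).1 = j then
            3 * A * Y (⟨i, k⟩ : Σ i, Fin (d i)).1 else 1) = if i = j then 3 * A * Y j else 1 := by
          intro i
          by_cases hij : i = j
          · subst hij
            simp [hj]
          · simp [hij]
        simp_rw [this]
        rw [Finset.prod_ite_eq' univ j, if_pos (mem_univ j)]
      rw [← h5, ← Finset.prod_mul_distrib]
      have : ∀ x : (Σ i, Fin (d i)), (if x.1 = j then (1 : ℝ) else 3 * A * Y x.1) *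
          (if x.1 = j then 3 * A * Y x.1 else 1) = 3 * A * Y x.1 := by
        intro x
        split_ifs <;> ring
      simp_rw [this]
      rw [Finset.prod_mul_distrib, Finset.prod_const, Finset.card_univ, hm]
    have h6 : 0 < 3 * A * Y j := by
      have := hY j
      positivity
    refine le_of_mul_le_mul_right (le_of_eq ?_) h6
    rw [h4]
    have := hY j
    field_simp
    ring
  · push Not at hall
    obtain ⟨i, hij, hi⟩ := hall
    have : {z : (Σ i, Fin (d i)) → ℤ | z ∈ {z : (Σ i, Fin (d i)) → ℤ | (∀ k, z ⟨j, k⟩ = 0) ∧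
        ∀ i, i ≠ j → ∃ k, z ⟨i, k⟩ ≠ 0} ∧ Nw (fun x => Y x.1) z ≤ A} = ∅ := by
      rw [Set.eq_empty_iff_forall_notMem]
      rintro z ⟨⟨-, h1⟩, h2⟩
      obtain ⟨k, hk⟩ := h1 i hij
      have h3 := one_le_Nw hY hk
      have h4 := mul_le_mul_of_nonneg_right h2 (hY i).le
      linarith
    rw [this, Set.ncard_empty]
    have h5 : 0 < ∏ x : (Σ i, Fin (d i)), Y x.1 := Finset.prod_pos fun x _ => hY' x
    have := hY j
    push_cast
    positivity

end sigma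

end Pool.Agent.Y319.KE
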