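import Pool.Agent.Y714.KE.Bas
import Pool.Agent.Y319.KE.Cnt

/-!
# KE-T1: lattices with a short vector in a cell, nonempty cells
-/

set_option autoImplicit false
set_option linter.unusedSectionVars false
set_option linter.unusedVariables false

namespace Pool.Agent.Y319.KE

open Pool.Agent.Y714.KE
open Pool.Agent.Y714.KF (FI sp ct nm pm ext br gl ubas qf bk el sg bf)
open NumberField FractionalIdeal Module Finset ComplexConjugate MeasureTheory Filter Topology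
open scoped nonZeroDivisors

variable {s : Type} [Fintype s] [DecidableEq s] {K : s → Type} [∀ i, Field (K i)]
  [∀ i, NumberField (K i)]

/-- the lattice with given coordinates of the basis -/
noncomputable def Gz (b : Bs K) (z w : Ix K → ℤ) : Submodule ℤ (Al K) := LT (pr b (Sum.elim z w))

theorem Gz_add (b : Bs K) (z w : Ix K → ℤ) (j : ℕ) : Gz b z (w + j • z) = Gz b z w := by
  unfold Gz
  have e : pr b (Sum.elim z (w + j • z)) = glz 1 0 j 1 (pr b (Sum.elim z w)) := by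
    unfold glz pr
    refine Prod.ext ?_ ?_
    · funext i
      simp
    · funext i
      have h1 : (fun k => (Sum.elim z (w + j • z) : Ix K ⊕ Ix K → ℤ) (Sum.inr ⟨i, k⟩)) =
          (fun k => w ⟨i, k⟩) + (j : ℤ) • (fun k => z ⟨i, k⟩) := by
        funext k
        simp
      simp only [Sum.elim_inl, Pi.add_apply, Pi.smul_apply] at h1 ⊢
      rw [h1, Pool.Agent.Y714.KF.el_add, Pool.Agent.Y714.KF.el_smul]
      simp only [Sum.elim_inr, one_smul, zsmul_eq_mul]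
      push_cast
      ring
  rw [e, LT_glz 1 0 j 1 (by left; ring)]

/-- the structure of the lattices of a cell -/
theorem struct (hodd : Odd (dg K)) (hn : 3 ≤ dg K) (κ : Ux K → ℝ) (i₀ : s) (I : FU K) (b : Bs K)
    (hb : IsB I b) : ∃ B c : ℝ, 0 < B ∧ 0 < c ∧ ∀ (y : s → ℝ), ∀ M ∈ SY κ i₀ (cf I) y,
      ∃ z w : Ix K → ℤ, Gz b z w = M ∧ 0 < Nw (fun x => Real.exp (y x.1)) z ∧
        Nw (fun x => Real.exp (y x.1)) z * Nw (fun x => Real.exp (y x.1)) w ≤ B ∧
        Nw (fun x => Real.exp (y x.1)) z ^ 2 ≤ B ∧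
        (∀ x ∈ M, x ≠ 0 → c * Nw (fun x => Real.exp (y x.1)) z ^ 2 ≤ QY y x) ∧
        ((∀ i, ∃ k, z ⟨i, k⟩ ≠ 0) ∨ ∃ j, finrank ℚ (K j) = 1 ∧ (∀ k, z ⟨j, k⟩ = 0) ∧
          (∃ k, w ⟨j, k⟩ ≠ 0) ∧ ∀ i, i ≠ j → ∃ k, z ⟨i, k⟩ ≠ 0) := by
  obtain ⟨c, C, hc, hC, hbf⟩ := exists_bfA_bound b
  obtain ⟨C1, hC1, hbr⟩ := exists_br_boundY hodd hn κ
  refine ⟨√C1 / c, c, by positivity, hc, ?_⟩
  rintro y M ⟨P, rfl, hcn, hND, hNZ, hui, hpm⟩
  have hn2 : 2 ≤ dg K := by omega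
  obtain ⟨Q, hQL, hQR, hQN⟩ := exists_rbY y hND hn2
  obtain ⟨-, hpm', hcc', hui', -⟩ := LT_inv hodd hn2 hND hQL.symm
  have hNZ' : NZ κ (vc Q) := by
    intro j
    rw [hcc']
    exact hNZ j
  have hui1 : ∀ i, ui (vc Q) i ≤ y i + 1 := by
    intro i
    rw [hui']
    exact ui_le hodd hn hND hui hpm i
  have hQb := (hbr y Q hQN hNZ' hui1).2 hQR
  have hcnQ : ∀ i, cn Q i ≤ (I i : FI (K i)) := by
    intro i
    rw [cn_congr hQL]
    exact hcn i
  obtain ⟨Z, hZ⟩ := exists_pr hb hcnQ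
  obtain ⟨z, hz⟩ : ∃ z : Ix K → ℤ, z = fun x => Z (Sum.inl x) := ⟨_, rfl⟩
  obtain ⟨w, hw⟩ : ∃ w : Ix K → ℤ, w = fun x => Z (Sum.inr x) := ⟨_, rfl⟩
  have hZe : Z = Sum.elim z w := by
    rw [hz, hw]
    exact (Sum.elim_comp_inl_inr Z).symm
  rw [hZe] at hZ
  have hQ1 : ∀ i, Q.1 i = el (b i) fun k => z ⟨i, k⟩ := by
    intro i; rw [← hZ]; rfl
  have hQ2 : ∀ i, Q.2 i = el (b i) fun k => w ⟨i, k⟩ := by
    intro i; rw [← hZ]; rfl
  have el0 : ∀ (i : s) (v : Fin (finrank ℚ (K i)) → ℤ), (∀ k, v k = 0) → el (b i) v = 0 := by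
    intro i v hv
    unfold Pool.Agent.Y714.KF.el
    exact Finset.sum_eq_zero fun k _ => by rw [hv k]; simp
  have n1 : c * Nw (fun x => Real.exp (y x.1)) z ^ 2 ≤ QY y Q.1 ∧
      QY y Q.1 ≤ C * Nw (fun x => Real.exp (y x.1)) z ^ 2 := by
    have h1 := QY_pr1 b y (Sum.elim z w)
    rw [hZ] at h1
    rw [h1]
    exact hbf (lf (scl y (Sum.elim z w)))
  have n2 : c * Nw (fun x => Real.exp (y x.1)) w ^ 2 ≤ QY y Q.2 ∧
      QY y Q.2 ≤ C * Nw (fun x => Real.exp (y x.1)) w ^ 2 := by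
    have h1 := QY_pr2 b y (Sum.elim z w)
    rw [hZ] at h1
    rw [h1]
    exact hbf (rt (scl y (Sum.elim z w)))
  have hIN := hQN.ind hn2
  have hQ10 : Q.1 ≠ 0 := by
    intro h0
    have := (hIN 1 0 (by rw [h0]; simp)).1
    exact one_ne_zero this
  have hzn : (0 : ℝ) ≤ Nw (fun x : Ix K => Real.exp (y x.1)) z := norm_nonneg _
  have hwn : (0 : ℝ) ≤ Nw (fun x : Ix K => Real.exp (y x.1)) w := norm_nonneg _
  have hzpos : 0 < Nw (fun x : Ix K => Real.exp (y x.1)) z := by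
    rcases hzn.lt_or_eq with h | h
    · exact h
    · exfalso
      have h1 := n1.2
      rw [← h] at h1
      have h2 := QY_pos y hQ10
      linarith [h1, h2, show C * (0 : ℝ) ^ 2 = 0 by ring]
  have hsc : √C1 ^ 2 = C1 := Real.sq_sqrt hC1.le
  have q0 := QY_nonneg y Q.1
  have q0' := QY_nonneg y Q.2
  refine ⟨z, w, ?_, hzpos, ?_, ?_, ?_, ?_⟩
  · unfold Gz
    rw [hZ, hQL]
  · rw [le_div_iff₀ hc]
    refine abs_le_of_sq_le_sq' ?_ (by positivity) |>.2
    rw [hsc]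
    calc (Nw (fun x => Real.exp (y x.1)) z * Nw (fun x => Real.exp (y x.1)) w * c) ^ 2 =
        (c * Nw (fun x => Real.exp (y x.1)) z ^ 2) * (c * Nw (fun x => Real.exp (y x.1)) w ^ 2) := by
          ring
      _ ≤ QY y Q.1 * QY y Q.2 := by gcongr; exacts [n1.1, n2.1]
      _ ≤ C1 := hQb
  · rw [le_div_iff₀ hc]
    refine abs_le_of_sq_le_sq' ?_ (by positivity) |>.2
    rw [hsc]
    calc (Nw (fun x => Real.exp (y x.1)) z ^ 2 * c) ^ 2 =
        (c * Nw (fun x => Real.exp (y x.1)) z ^ 2) * (c * Nw (fun x => Real.exp (y x.1)) z ^ 2) := by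
          ring
      _ ≤ QY y Q.1 * QY y Q.1 := by gcongr; exacts [n1.1, n1.1]
      _ ≤ QY y Q.1 * QY y Q.2 := by gcongr; exact hQR.1
      _ ≤ C1 := hQb
  · intro x hx hx0
    rw [← hQL] at hx
    exact n1.1.trans (hQR.minY hIN hx hx0)
  · by_cases hall : ∀ i, ∃ k, z ⟨i, k⟩ ≠ 0
    · exact Or.inl hall
    · right
      push Not at hall
      obtain ⟨j, hj⟩ := hall
      have hj0 : Q.1 j = 0 := by rw [hQ1]; exact el0 j _ hj
      refine ⟨j, ?_, hj, ?_, ?_⟩
      · by_contra h1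
        have hpos : 0 < finrank ℚ (K j) := finrank_pos
        have hcard : Fintype.card (K j →+* ℂ) = finrank ℚ (K j) := NumberField.Embeddings.card (K j) ℂ
        obtain ⟨σ, τ, hστ⟩ := Fintype.one_lt_card_iff.1 (show 1 < Fintype.card (K j →+* ℂ) by omega)
        apply hQN ⟨j, σ⟩ ⟨j, τ⟩ (fun h => hστ (by simpa using h))
        unfold Pool.Agent.Y714.KF.br vc
        simp [hj0]
      · by_contra h1
        push Not at h1
        have h2 : Q.2 j = 0 := by rw [hQ2]; exact el0 j _ h1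
        rcases hQN.ne hn2 j with h3 | h3
        · exact h3 hj0
        · exact h3 h2
      · intro i hij
        by_contra h1
        push Not at h1
        have h2 : Q.1 i = 0 := by rw [hQ1]; exact el0 i _ h1
        obtain ⟨σ⟩ : Nonempty (K i →+* ℂ) := inferInstance
        obtain ⟨τ⟩ : Nonempty (K j →+* ℂ) := inferInstance
        apply hQN ⟨i, σ⟩ ⟨j, τ⟩ (fun h => hij (congrArg Sigma.fst h))
        unfold Pool.Agent.Y714.KF.br vc
        simp [hj0, h2]

/-- CEL -/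
theorem cel : S_CEL K := by
  intro hodd hn κ i₀ I
  obtain ⟨b, hb⟩ := exists_bs I
  obtain ⟨B, c, hB, hc, hst⟩ := struct hodd hn κ i₀ I b hb
  refine ⟨|Real.log B| + 1, by positivity, ?_⟩
  rintro y ⟨M, hM⟩
  obtain ⟨z, w, -, hz0, hzw, hz2, -, hcase⟩ := hst y M hM
  have hY : ∀ i : s, 0 < Real.exp (y i) := fun i => Real.exp_pos _
  have l1 : -(Real.log B) ≤ |Real.log B| := neg_le_abs _
  have l2 : Real.log B ≤ |Real.log B| := le_abs_self _
  have key : ∀ i, (∃ k, z ⟨i, k⟩ ≠ 0) → -|Real.log B| ≤ 2 * y i := by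
    rintro i ⟨k, hk⟩
    have h1 := one_le_Nw (d := fun i => finrank ℚ (K i)) (Y := fun i => Real.exp (y i)) hY hk
    have h2 : 1 ≤ B * Real.exp (y i) ^ 2 := by
      calc (1 : ℝ) ≤ (Nw (fun x : Ix K => Real.exp (y x.1)) z * Real.exp (y i)) ^ 2 :=
            one_le_pow₀ h1
        _ = Nw (fun x : Ix K => Real.exp (y x.1)) z ^ 2 * Real.exp (y i) ^ 2 := by ring
        _ ≤ _ := by gcongr
    have h3 := Real.log_le_log one_pos h2
    rw [Real.log_one, Real.log_mul hB.ne' (by positivity), Real.log_pow, Real.log_exp] at h3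
    push_cast at h3
    linarith
  have hs : Nonempty s := by
    by_contra h1
    rw [not_nonempty_iff] at h1
    have : dg K = 0 := by
      unfold dg
      exact Finset.sum_eq_zero fun i _ => (h1.false i).elim
    omega
  rcases hcase with h | ⟨j, hj1, hjz, ⟨k', hk'⟩, hjw⟩
  · obtain ⟨j⟩ := hs
    refine ⟨j, fun _ => ?_, fun i _ => ⟨?_, ?_⟩⟩
    · have := key j (h j)
      linarith [abs_nonneg (Real.log B)]
    · have := key i (h i)
      linarith [abs_nonneg (Real.log B)]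
    · have h1 := key i (h i)
      have h2 := key j (h j)
      linarith [abs_nonneg (Real.log B)]
  · refine ⟨j, fun h2 => by omega, fun i hij => ⟨?_, ?_⟩⟩
    · have := key i (hjw i hij)
      linarith [abs_nonneg (Real.log B)]
    · obtain ⟨k, hk⟩ := hjw i hij
      have h1 := one_le_Nw (d := fun i => finrank ℚ (K i)) (Y := fun i => Real.exp (y i)) hY hk
      have h2 := one_le_Nw (d := fun i => finrank ℚ (K i)) (Y := fun i => Real.exp (y i)) hY hk'
      have h3 : 1 ≤ B * (Real.exp (y i) * Real.exp (y j)) := by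
        calc (1 : ℝ) ≤ (Nw (fun x : Ix K => Real.exp (y x.1)) z * Real.exp (y i)) *
              (Nw (fun x : Ix K => Real.exp (y x.1)) w * Real.exp (y j)) := one_le_mul_of_one_le_of_one_le h1 h2
          _ = (Nw (fun x : Ix K => Real.exp (y x.1)) z * Nw (fun x : Ix K => Real.exp (y x.1)) w) *
              (Real.exp (y i) * Real.exp (y j)) := by ring
          _ ≤ _ := by gcongr
      have h4 := Real.log_le_log one_pos h3
      rw [Real.log_one, Real.log_mul hB.ne' (by positivity), ← Real.exp_add, Real.log_exp] at h4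
      linarith

theorem card_Ix : Fintype.card (Ix K) = dg K := by
  unfold dg
  rw [Fintype.card_sigma]
  simp

theorem prod_exp (y : s → ℝ) : (∏ x : Ix K, Real.exp (y x.1)) ^ 2 = tt (K := K) y := by
  unfold tt
  rw [Fintype.prod_sigma]
  simp only [Finset.prod_const, Finset.card_univ, Fintype.card_fin]
  rw [← Finset.prod_pow, Finset.mul_sum, Real.exp_sum]
  refine Finset.prod_congr rfl fun i _ => ?_
  rw [← Real.exp_nat_mul, ← Real.exp_nat_mul]
  refine congrArg Real.exp ?_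
  push_cast
  ring

/-- the second part, with finiteness -/
theorem t1_aux (hodd : Odd (dg K)) (hn : 3 ≤ dg K) (κ : Ux K → ℝ) (i₀ : s) (I : FU K) :
    ∃ C : ℝ, 0 < C ∧ ∀ (y : s → ℝ) (ρ : ℝ), 0 < ρ →
      {M ∈ SY κ i₀ (cf I) y | ∃ x ∈ M, x ≠ 0 ∧ QY y x ≤ ρ ^ 2}.Finite ∧
      ({M ∈ SY κ i₀ (cf I) y | ∃ x ∈ M, x ≠ 0 ∧ QY y x ≤ ρ ^ 2}.ncard : ℝ) ≤
      C * (ρ ^ 2 + ∑ j ∈ univ.filter (fun j => finrank ℚ (K j) = 1),
        min 1 (ρ * Real.exp (-(y j)))) * tt (K := K) y := by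
  obtain ⟨b, hb⟩ := exists_bs I
  obtain ⟨B, c, hB, hc, hst⟩ := struct hodd hn κ i₀ I b hb
  obtain ⟨q, hq⟩ : ∃ q, dg K = q + 2 := ⟨dg K - 2, by omega⟩
  have hcard : Fintype.card (Ix K) = q + 2 := by rw [card_Ix, hq]
  set C₀ : ℝ := 5 ^ (q + 2) * B ^ (q + 1) * (2 ^ (q + 1) * 3 ^ (q + 2)) with hC₀
  have hC₀pos : 0 < C₀ := by positivity
  have hsc : √c ^ 2 = c := Real.sq_sqrt hc.le
  have hscpos : 0 < √c := Real.sqrt_pos.2 hc
  refine ⟨C₀ * (1 / c + 1 / √c + B), by positivity, fun y ρ hρ => ?_⟩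
  have hY : ∀ i : s, 0 < Real.exp (y i) := fun i => Real.exp_pos _
  have hYx : ∀ x : Ix K, 0 < Real.exp (y x.1) := fun x => Real.exp_pos _
  obtain ⟨PY, hPY⟩ : ∃ PY, PY = ∏ x : Ix K, Real.exp (y x.1) := ⟨_, rfl⟩
  have hPYpos : 0 < PY := by rw [hPY]; exact Finset.prod_pos fun x _ => hYx x
  have hPY2 : PY ^ 2 = tt (K := K) y := by rw [hPY]; exact prod_exp y
  obtain ⟨S, hS⟩ : ∃ S, S = {M ∈ SY κ i₀ (cf I) y | ∃ x ∈ M, x ≠ 0 ∧ QY y x ≤ ρ ^ 2} := ⟨_, rfl⟩
  rw [← hS]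
  -- the bound of the first vector
  have hρN : ∀ {N : ℝ}, 0 < N → c * N ^ 2 ≤ ρ ^ 2 → N ≤ ρ / √c := by
    intro N hN h
    rw [le_div_iff₀ hscpos]
    refine abs_le_of_sq_le_sq' ?_ hρ.le |>.2
    rw [mul_pow, hsc]
    linarith
  have hYB : ∀ {z w : Ix K → ℤ}, Nw (fun x : Ix K => Real.exp (y x.1)) z *
      Nw (fun x : Ix K => Real.exp (y x.1)) w ≤ B → Nw (fun x : Ix K => Real.exp (y x.1)) z ^ 2 ≤ B →
      0 < Nw (fun x : Ix K => Real.exp (y x.1)) z → ∀ i, ((∃ k, z ⟨i, k⟩ ≠ 0) ∨ (∃ k, w ⟨i, k⟩ ≠ 0)) →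
      Nw (fun x : Ix K => Real.exp (y x.1)) z ≤ B * Real.exp (y i) := by
    intro z w h1 h2 h3 i h4
    rcases h4 with ⟨k, hk⟩ | ⟨k, hk⟩
    · have h5 := one_le_Nw (d := fun i => finrank ℚ (K i)) (Y := fun i => Real.exp (y i)) hY hk
      calc Nw (fun x : Ix K => Real.exp (y x.1)) z ≤ Nw (fun x : Ix K => Real.exp (y x.1)) z *
            (Nw (fun x : Ix K => Real.exp (y x.1)) z * Real.exp (y i)) :=
            le_mul_of_one_le_right h3.le h5
        _ = Nw (fun x : Ix K => Real.exp (y x.1)) z ^ 2 * Real.exp (y i) := by ring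
        _ ≤ _ := by gcongr
    · have h5 := one_le_Nw (d := fun i => finrank ℚ (K i)) (Y := fun i => Real.exp (y i)) hY hk
      calc Nw (fun x : Ix K => Real.exp (y x.1)) z ≤ Nw (fun x : Ix K => Real.exp (y x.1)) z *
            (Nw (fun x : Ix K => Real.exp (y x.1)) w * Real.exp (y i)) :=
            le_mul_of_one_le_right h3.le h5
        _ = (Nw (fun x : Ix K => Real.exp (y x.1)) z * Nw (fun x : Ix K => Real.exp (y x.1)) w) *
            Real.exp (y i) := by ring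
        _ ≤ _ := by gcongr
  -- case A
  obtain ⟨SA', hSA'⟩ : ∃ SA' : Set (Submodule ℤ (Al K)), SA' = {M | ∃ z w : Ix K → ℤ, Gz b z w = M ∧
      z ∈ {z : Ix K → ℤ | ∀ i, ∃ k, z ⟨i, k⟩ ≠ 0} ∧
      0 < Nw (fun x => Real.exp (y x.1)) z ∧
      Nw (fun x => Real.exp (y x.1)) z * Nw (fun x => Real.exp (y x.1)) w ≤ B ∧
      Nw (fun x => Real.exp (y x.1)) z ^ 2 ≤ B ∧ Nw (fun x => Real.exp (y x.1)) z ≤ ρ / √c ∧
      ∀ x : Ix K, Nw (fun x => Real.exp (y x.1)) z ≤ B * Real.exp (y x.1)} := ⟨_, rfl⟩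
  have cA := count hcard (fun x : Ix K => Real.exp (y x.1)) hYx (Gz b) (Gz_add b) hB
    (X := ρ / √c) (by positivity) (K := 3 ^ (q + 2) * PY) (by positivity)
    {z : Ix K → ℤ | ∀ i, ∃ k, z ⟨i, k⟩ ≠ 0} (p := q + 2) (by omega)
    (fun A hA => by
      have := zA (fun i => finrank ℚ (K i)) (fun i => Real.exp (y i)) hY A hA
      rw [hcard, ← hPY] at this
      exact this) SA' (by rw [hSA']; exact fun M hM => hM)
  -- case B
  obtain ⟨SB, hSB⟩ : ∃ SB : s → Set (Submodule ℤ (Al K)), SB = fun j => {M | ∃ z w : Ix K → ℤ,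
      Gz b z w = M ∧
      z ∈ {z : Ix K → ℤ | (∀ k, z ⟨j, k⟩ = 0) ∧ ∀ i, i ≠ j → ∃ k, z ⟨i, k⟩ ≠ 0} ∧
      0 < Nw (fun x => Real.exp (y x.1)) z ∧
      Nw (fun x => Real.exp (y x.1)) z * Nw (fun x => Real.exp (y x.1)) w ≤ B ∧
      Nw (fun x => Real.exp (y x.1)) z ^ 2 ≤ B ∧
      Nw (fun x => Real.exp (y x.1)) z ≤ min (ρ / √c) (B * Real.exp (y j)) ∧
      ∀ x : Ix K, Nw (fun x => Real.exp (y x.1)) z ≤ B * Real.exp (y x.1)} := ⟨_, rfl⟩
  have cB : ∀ j, finrank ℚ (K j) = 1 → (SB j).Finite ∧ ((SB j).ncard : ℝ) ≤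
      (5 ^ (q + 2) * B ^ (q + 1) * PY) * (2 ^ (q + 1) * (3 ^ (q + 1) * PY / Real.exp (y j)) *
        min (ρ / √c) (B * Real.exp (y j))) := by
    intro j hj
    have hXp : 0 < min (ρ / √c) (B * Real.exp (y j)) := lt_min (by positivity) (by positivity)
    have := count hcard (fun x : Ix K => Real.exp (y x.1)) hYx (Gz b) (Gz_add b) hB
      (X := min (ρ / √c) (B * Real.exp (y j))) hXp
      (K := 3 ^ (q + 1) * PY / Real.exp (y j)) (by positivity)
      {z : Ix K → ℤ | (∀ k, z ⟨j, k⟩ = 0) ∧ ∀ i, i ≠ j → ∃ k, z ⟨i, k⟩ ≠ 0} (p := q + 1) (by omega)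
      (fun A hA => by
        have := zB (fun i => finrank ℚ (K i)) (fun i => Real.exp (y i)) hY j hj
          (m := q + 1) (by rw [hcard]) A hA
        rw [← hPY] at this
        exact this) (SB j) (by rw [hSB]; exact fun M hM => hM)
    rw [← hPY, Nat.add_sub_cancel_left, pow_one] at this
    exact this
  have hsub : S ⊆ SA' ∪ ⋃ j ∈ univ.filter (fun j => finrank ℚ (K j) = 1), SB j := by
    intro M hM
    rw [hS] at hM
    obtain ⟨hM, x, hxM, hx0, hxρ⟩ := hM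
    obtain ⟨z, w, hG, hz0, hzw, hz2, hmin, hcase⟩ := hst y M hM
    have hN := hρN hz0 ((hmin x hxM hx0).trans hxρ)
    rcases hcase with h | ⟨j, hj1, hjz, hjw, hjall⟩
    · left
      rw [hSA']
      exact ⟨z, w, hG, h, hz0, hzw, hz2, hN, fun x => hYB hzw hz2 hz0 x.1 (Or.inl (h x.1))⟩
    · right
      refine Set.mem_iUnion₂.2 ⟨j, by simp [hj1], ?_⟩
      rw [hSB]
      have hall : ∀ i, Nw (fun x : Ix K => Real.exp (y x.1)) z ≤ B * Real.exp (y i) := by
        intro i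
        by_cases hij : i = j
        · subst hij
          exact hYB hzw hz2 hz0 i (Or.inr hjw)
        · exact hYB hzw hz2 hz0 i (Or.inl (hjall i hij))
      exact ⟨z, w, hG, ⟨hjz, hjall⟩, hz0, hzw, hz2, le_min hN (hall j), fun x => hall x.1⟩
  have hBfin : (⋃ j ∈ univ.filter (fun j => finrank ℚ (K j) = 1), SB j).Finite := by
    refine Set.Finite.biUnion (Finset.finite_toSet _) fun j hj => (cB j ?_).1
    exact (Finset.mem_filter.1 hj).2
  have hfin : S.Finite := (cA.1.union hBfin).subset hsub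
  refine ⟨hfin, ?_⟩
  have hBle : ((⋃ j ∈ univ.filter (fun j => finrank ℚ (K j) = 1), SB j).ncard : ℝ) ≤
      ∑ j ∈ univ.filter (fun j => finrank ℚ (K j) = 1), ((SB j).ncard : ℝ) := by
    classical
    have h1 : ∀ F : Finset s, (∀ j ∈ F, finrank ℚ (K j) = 1) →
        ((⋃ j ∈ F, SB j).Finite ∧ ((⋃ j ∈ F, SB j).ncard : ℝ) ≤ ∑ j ∈ F, ((SB j).ncard : ℝ)) := by
      intro F
      induction F using Finset.induction_on with
      | empty => intro _; simp
      | insert a F ha ih =>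
        intro h
        obtain ⟨i1, i2⟩ := ih fun j hj => h j (mem_insert_of_mem hj)
        have i3 := (cB a (h a (mem_insert_self _ _))).1
        rw [Finset.set_biUnion_insert, Finset.sum_insert ha]
        refine ⟨i3.union i1, ?_⟩
        have := Set.ncard_union_le (SB a) (⋃ j ∈ F, SB j)
        have h5 : ((SB a ∪ ⋃ j ∈ F, SB j).ncard : ℝ) ≤ ((SB a).ncard : ℝ) +
          ((⋃ j ∈ F, SB j).ncard : ℝ) := by exact_mod_cast this
        linarith
    exact (h1 _ fun j hj => (Finset.mem_filter.1 hj).2).2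
  have hle : (S.ncard : ℝ) ≤ (SA'.ncard : ℝ) +
      ∑ j ∈ univ.filter (fun j => finrank ℚ (K j) = 1), ((SB j).ncard : ℝ) := by
    have h1 := Set.ncard_le_ncard hsub (cA.1.union hBfin)
    have h2 := Set.ncard_union_le SA' (⋃ j ∈ univ.filter (fun j => finrank ℚ (K j) = 1), SB j)
    have h3 : (S.ncard : ℝ) ≤ (SA'.ncard : ℝ) +
      ((⋃ j ∈ univ.filter (fun j => finrank ℚ (K j) = 1), SB j).ncard : ℝ) := by
        exact_mod_cast h1.trans h2
    linarith
  have hcA : (SA'.ncard : ℝ) ≤ C₀ * (1 / c) * ρ ^ 2 * tt (K := K) y := by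
    have h1 := cA.2
    rw [← hPY, Nat.add_sub_cancel_left] at h1
    refine h1.trans (le_of_eq ?_)
    rw [hC₀, ← hPY2, div_pow, hsc]
    field_simp
  have htt : 0 < tt (K := K) y := by rw [← hPY2]; positivity
  have hcB : ∀ j ∈ univ.filter (fun j => finrank ℚ (K j) = 1), ((SB j).ncard : ℝ) ≤
      C₀ * (1 / √c + B) * min 1 (ρ * Real.exp (-(y j))) * tt (K := K) y := by
    intro j hj
    refine (cB j (Finset.mem_filter.1 hj).2).2.trans ?_
    have h1 : min (ρ / √c) (B * Real.exp (y j)) ≤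
        (1 / √c + B) * min 1 (ρ * Real.exp (-(y j))) * Real.exp (y j) := by
      rw [mul_assoc, min_mul_of_nonneg _ _ (hY j).le, one_mul, mul_assoc ρ, ← Real.exp_add,
        neg_add_cancel, Real.exp_zero, mul_one]
      rcases le_total (Real.exp (y j)) ρ with h | h
      · rw [min_eq_left h]
        refine (min_le_right _ _).trans ?_
        have : 0 ≤ 1 / √c * Real.exp (y j) := by positivity
        linarith
      · rw [min_eq_right h]
        refine (min_le_left _ _).trans ?_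
        have : 0 ≤ B * ρ := by positivity
        rw [div_eq_mul_one_div]
        linarith
    have h2 : (3 : ℝ) ^ (q + 1) ≤ 3 ^ (q + 2) := pow_le_pow_right₀ (by norm_num) (by omega)
    have h3 : 0 ≤ min 1 (ρ * Real.exp (-(y j))) := le_min zero_le_one (by positivity)
    calc (5 ^ (q + 2) * B ^ (q + 1) * PY) * (2 ^ (q + 1) * (3 ^ (q + 1) * PY / Real.exp (y j)) *
        min (ρ / √c) (B * Real.exp (y j))) ≤
        (5 ^ (q + 2) * B ^ (q + 1) * PY) * (2 ^ (q + 1) * (3 ^ (q + 2) * PY / Real.exp (y j)) *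
        ((1 / √c + B) * min 1 (ρ * Real.exp (-(y j))) * Real.exp (y j))) := by gcongr
      _ = _ := by
        rw [hC₀, ← hPY2]
        have := hY j
        field_simp
  refine hle.trans ?_
  have h7 := Finset.sum_le_sum hcB
  rw [← Finset.sum_mul, ← Finset.mul_sum] at h7
  obtain ⟨Sm, hSm⟩ : ∃ Sm, Sm = ∑ j ∈ univ.filter (fun j => finrank ℚ (K j) = 1),
    min 1 (ρ * Real.exp (-(y j))) := ⟨_, rfl⟩
  have hSm0 : 0 ≤ Sm := by
    rw [hSm]
    exact Finset.sum_nonneg fun j _ => le_min zero_le_one (by positivity)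
  rw [← hSm] at h7 ⊢
  have h8 : C₀ * (1 / c) * ρ ^ 2 * tt (K := K) y ≤
      C₀ * (1 / c + 1 / √c + B) * ρ ^ 2 * tt (K := K) y := by
    gcongr
    have : 0 < 1 / √c := by positivity
    linarith
  have h9 : C₀ * (1 / √c + B) * Sm * tt (K := K) y ≤
      C₀ * (1 / c + 1 / √c + B) * Sm * tt (K := K) y := by
    gcongr
    have : 0 < 1 / c := by positivity
    linarith
  calc (SA'.ncard : ℝ) + ∑ j ∈ univ.filter (fun j => finrank ℚ (K j) = 1), ((SB j).ncard : ℝ) ≤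
      C₀ * (1 / c + 1 / √c + B) * ρ ^ 2 * tt (K := K) y +
        C₀ * (1 / c + 1 / √c + B) * Sm * tt (K := K) y := by linarith
    _ = _ := by ring

/-- T1 -/
theorem t1' : S_T1 K := by
  intro hodd hn κ i₀ I
  obtain ⟨C, hC, h⟩ := t1_aux hodd hn κ i₀ I
  obtain ⟨C1, hC1, hbr⟩ := exists_br_boundY hodd hn κ
  set ρ : ℝ := √(√C1) with hρ
  have hρ2 : ρ ^ 2 = √C1 := Real.sq_sqrt (Real.sqrt_nonneg _)
  have hρpos : 0 < ρ := Real.sqrt_pos.2 (Real.sqrt_pos.2 hC1)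
  refine ⟨C * (ρ ^ 2 + Fintype.card s) + C, by positivity, fun y => ?_⟩
  have htt : 0 < tt (K := K) y := Real.exp_pos _
  have e : {M ∈ SY κ i₀ (cf I) y | ∃ x ∈ M, x ≠ 0 ∧ QY y x ≤ ρ ^ 2} = SY κ i₀ (cf I) y := by
    ext M
    refine ⟨fun h => h.1, fun h => ⟨h, ?_⟩⟩
    obtain ⟨P, rfl, hcn, hND, hNZ, hui, hpm⟩ := h
    have hn2 : 2 ≤ dg K := by omega
    obtain ⟨Q, hQL, hQR, hQN⟩ := exists_rbY y hND hn2
    obtain ⟨-, hpm', hcc', hui', -⟩ := LT_inv hodd hn2 hND hQL.symm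
    have hNZ' : NZ κ (vc Q) := by
      intro j
      rw [hcc']
      exact hNZ j
    have hui1 : ∀ i, ui (vc Q) i ≤ y i + 1 := by
      intro i
      rw [hui']
      exact ui_le hodd hn hND hui hpm i
    have hQb := (hbr y Q hQN hNZ' hui1).2 hQR
    refine ⟨Q.1, hQL ▸ fst_mem_LT Q, ?_, ?_⟩
    · intro h0
      have := ((hQN.ind hn2) 1 0 (by rw [h0]; simp)).1
      exact one_ne_zero this
    · rw [hρ2]
      refine abs_le_of_sq_le_sq' ?_ (Real.sqrt_nonneg _) |>.2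
      rw [Real.sq_sqrt hC1.le]
      have q0 := QY_nonneg y Q.1
      calc QY y Q.1 ^ 2 = QY y Q.1 * QY y Q.1 := by ring
        _ ≤ QY y Q.1 * QY y Q.2 := by gcongr; exact hQR.1
        _ ≤ C1 := hQb
  have hsum : ∀ ρ : ℝ, 0 < ρ → 0 ≤ ∑ j ∈ univ.filter (fun j => finrank ℚ (K j) = 1),
      min 1 (ρ * Real.exp (-(y j))) := fun ρ hρ =>
    Finset.sum_nonneg fun j _ => le_min zero_le_one (by positivity)
  refine ⟨?_, fun ρ' hρ' => ?_⟩
  · obtain ⟨h1, h2⟩ := h y ρ hρpos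
    rw [e] at h1 h2
    refine ⟨h1, h2.trans ?_⟩
    have h3 : ∑ j ∈ univ.filter (fun j => finrank ℚ (K j) = 1), min 1 (ρ * Real.exp (-(y j))) ≤
        Fintype.card s := by
      calc ∑ j ∈ univ.filter (fun j => finrank ℚ (K j) = 1), min 1 (ρ * Real.exp (-(y j))) ≤
          ∑ j ∈ univ.filter (fun j => finrank ℚ (K j) = 1), (1 : ℝ) :=
            Finset.sum_le_sum fun j _ => min_le_left _ _
        _ = ((univ.filter (fun j => finrank ℚ (K j) = 1)).card : ℝ) := by simp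
        _ ≤ _ := by exact_mod_cast Finset.card_le_univ _
    have h4 : C * (ρ ^ 2 + ∑ j ∈ univ.filter (fun j => finrank ℚ (K j) = 1),
        min 1 (ρ * Real.exp (-(y j)))) ≤ C * (ρ ^ 2 + Fintype.card s) + C := by
      have : C * (ρ ^ 2 + ∑ j ∈ univ.filter (fun j => finrank ℚ (K j) = 1),
        min 1 (ρ * Real.exp (-(y j)))) ≤ C * (ρ ^ 2 + Fintype.card s) := by gcongr
      linarith
    exact mul_le_mul_of_nonneg_right h4 htt.le
  · refine (h y ρ' hρ').2.trans ?_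
    have h5 := hsum ρ' hρ'
    have h6 : 0 ≤ C * (ρ ^ 2 + Fintype.card s) := by positivity
    have h7 : C ≤ C * (ρ ^ 2 + Fintype.card s) + C := by linarith
    gcongr

/-- T1 -/
theorem t1 (h : S_BOX) : S_T1 K := t1'

end Pool.Agent.Y319.KE
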