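import Pool.Agent.Y714.KE.Glue
import Pool.Agent.Y714.KE.Bas

set_option autoImplicit false
set_option linter.unusedSectionVars false
set_option linter.unusedVariables false

/-! Etale algebras: the twisted count in good cusp cells. -/

namespace Pool.Agent.Y319.KE

open Pool.Agent.Y714.KF (FI sp ct nm pm ext br gl ubas qf bk el sg bf)
open Pool.Agent.Y714.KE
open NumberField FractionalIdeal Module Finset ComplexConjugate MeasureTheory Filter Topology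
open scoped nonZeroDivisors

section

theorem frontier_sub {X : Type} [TopologicalSpace X] {A B : Set X} (hA : IsOpen A)
    (hAB : A ⊆ B) : frontier A ⊆ closure B \ A := by
  rw [hA.frontier_eq]
  exact Set.sdiff_subset_sdiff_left (closure_mono hAB)

theorem finite_scaled {ι : Type} [Fintype ι] {D : Set (ι → ℝ)} (hD : Bornology.IsBounded D)
    (Y : ι → ℝ) (hY : ∀ i, 0 < Y i) :
    {z : ι → ℤ | (fun i => (z i : ℝ) / Y i) ∈ D}.Finite := by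
  obtain ⟨R, hR⟩ := (Metric.isBounded_iff_subset_closedBall 0).1 hD
  have hfin2 : {z : ι → ℤ | z ∈ Set.pi Set.univ
      fun i => Set.Icc (-⌈R * Y i⌉) ⌈R * Y i⌉}.Finite :=
    Set.Finite.pi fun _ => Set.finite_Icc _ _
  refine hfin2.subset ?_
  intro z hz
  have h1 := hR hz
  rw [mem_closedBall_zero_iff] at h1
  simp only [Set.mem_ofPred_eq, Set.mem_pi, Set.mem_univ, true_implies, Set.mem_Icc]
  intro i
  have h2 := (norm_le_pi_norm (fun i => (z i : ℝ) / Y i) i).trans h1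
  rw [Real.norm_eq_abs, abs_div, abs_of_pos (hY i), div_le_iff₀ (hY i), abs_le] at h2
  constructor
  · have : (-(⌈R * Y i⌉ : ℤ) : ℝ) ≤ z i := by
      have := Int.le_ceil (R * Y i)
      linarith [h2.1]
    exact_mod_cast this
  · have : (z i : ℝ) ≤ (⌈R * Y i⌉ : ℤ) := h2.2.trans (Int.le_ceil _)
    exact_mod_cast this

variable {s : Type} [Fintype s] [DecidableEq s] {K : s → Type} [∀ i, Field (K i)]
  [∀ i, NumberField (K i)]

theorem Dmj_subset (b : Bs K) (κ : Ux K → ℝ) (i₀ j : s) (δ : ℝ) :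
    Dmj b κ i₀ j δ ⊆ Dcj b κ i₀ j δ := by
  rintro u ⟨h1, h2, h3, h4, h5, h6, h7⟩
  exact ⟨h1.le, h2.le, h3.le, h4, h5.le, fun l => ⟨(h6 l).1.le, (h6 l).2.le⟩,
    fun i hi => ⟨(h7 i hi).1.le, (h7 i hi).2.le⟩⟩

theorem psi_LT {ψ : (Em K → ℂ × ℂ) → ℝ} (hψ : RFac ψ) {P Q : Al K × Al K}
    (hP : ND P) (hQ : ND Q) (hn : 2 ≤ dg K) (h : LT P = LT Q) : ψ (vc Q) = ψ (vc P) := by
  obtain ⟨m, n, k, l, hdet, rfl⟩ := LT_eq (hP.ind hn) (hQ.ind hn) h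
  rw [glz_eq, vc_glq]
  have := hψ.2.2.2 (vc P) (SYM_vc P) (hP.pm_pos hn) (m : ℝ) n k l (by
    rcases hdet with h | h
    · have : (m : ℝ) * l - n * k = 1 := by exact_mod_cast congrArg (Int.cast : ℤ → ℝ) h
      rw [this]; norm_num
    · have : (m : ℝ) * l - n * k = -1 := by exact_mod_cast congrArg (Int.cast : ℤ → ℝ) h
      rw [this]; norm_num)
  rw [← this]
  congr 1

theorem phi_LT {p : ℕ} {φ : Al K × Al K → ℝ} (hφ : PFac p φ) {P Q : Al K × Al K}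
    (hP : ND P) (hQ : ND Q) (hn : 2 ≤ dg K) (h : LT P = LT Q) : φ Q = φ P := by
  obtain ⟨m, n, k, l, hdet, rfl⟩ := LT_eq (hP.ind hn) (hQ.ind hn) h
  refine hφ.2.1 _ _ hP ⟨1, m, n, k, l, fun i => one_ne_zero, ?_, ?_⟩
  · rcases hdet with h | h
    · have : (m : ℚ) * l - n * k = 1 := by exact_mod_cast congrArg (Int.cast : ℤ → ℚ) h
      rw [this]; norm_num
    · have : (m : ℚ) * l - n * k = -1 := by exact_mod_cast congrArg (Int.cast : ℤ → ℚ) h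
      rw [this]; norm_num
  · rw [glz_eq]
    simp [sm]

theorem tw_LT (hodd : Odd (dg K)) (hn : 2 ≤ dg K) {S₀ : Finset ℕ}
    {ψ : (Em K → ℂ × ℂ) → ℝ} {φ : ℕ → Al K × Al K → ℝ} (hψ : RFac ψ)
    (hφ : ∀ p ∈ S₀, PFac p (φ p)) {P Q : Al K × Al K} (hP : ND P) (h : LT P = LT Q) :
    tw S₀ ψ φ Q = tw S₀ ψ φ P := by
  obtain ⟨hQ, h2, -, -, -⟩ := LT_inv hodd hn hP h
  unfold tw
  rw [h2, psi_LT hψ hP hQ hn h]
  congr 2
  exact prod_congr rfl fun p hp => phi_LT (hφ p hp) hP hQ hn h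

theorem TL_iff (hodd : Odd (dg K)) (hn : 2 ≤ dg K) {S₀ : Finset ℕ}
    {ψ : (Em K → ℂ × ℂ) → ℝ} {φ : ℕ → Al K × Al K → ℝ} (hψ : RFac ψ)
    (hφ : ∀ p ∈ S₀, PFac p (φ p)) {P : Al K × Al K} (hP : ND P) (t : ℝ) :
    TL S₀ ψ φ t (LT P) ↔ tw S₀ ψ φ P ≤ t := by
  constructor
  · rintro ⟨P', hP', h2⟩
    rw [← tw_LT hodd hn hψ hφ hP hP']
    exact h2
  · exact fun h => ⟨_, rfl, h⟩

theorem br_scaled (x x' : ℂ) (v w : ℂ × ℂ) (a d : ℂ) (had : a * d = 1) :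
    br (x • gl a 0 0 d v) (x' • gl a 0 0 d w) = x * x' * br v w := by
  unfold br gl
  simp only [Prod.smul_fst, Prod.smul_snd, smul_eq_mul]
  linear_combination (x * x' * (v.1 * w.2 - v.2 * w.1)) * had

theorem SYM_gl {v : Em K → ℂ × ℂ} (h : SYM v) (a b c d : ℝ) :
    SYM (fun e => gl (a : ℂ) b c d (v e)) := by
  intro i σ
  simp only [h i σ, gl]
  simp

theorem ND_scj (hSC : S_SCJ K) (hodd : Odd (dg K)) (hn : 3 ≤ dg K) (b : Bs K) (κ : Ux K → ℝ)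
    (i₀ j : s) (hj : finrank ℚ (K j) = 1) {δ : ℝ} (y : s → ℝ) (z : Jx K j → ℤ)
    (h : scj j y z ∈ Dmj b κ i₀ j δ) : ND (pr b (sl j z)) := by
  intro e f hef hbr
  have h1 := h.2.2.2.1 e f hef
  apply h1
  have h2 := ((hSC hodd hn b j hj).2.2.2 y z).1
  rw [h2 e, h2 f, br_scaled _ _ _ _ _ _ (by
    rw [← Complex.ofReal_mul, ← Real.exp_add]; simp), hbr, mul_zero]

theorem psi_scj (hSC : S_SCJ K) (hodd : Odd (dg K)) (hn : 3 ≤ dg K) (b : Bs K)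
    (j : s) (hj : finrank ℚ (K j) = 1) (y : s → ℝ) (z : Jx K j → ℤ)
    {ψ : (Em K → ℂ × ℂ) → ℝ} (hψ : RFac ψ) (hz : ND (pr b (sl j z))) :
    pm (rw2 b (sl j (scj j y z))) * ψ (rw2 b (sl j (scj j y z))) =
      pm (vc (pr b (sl j z))) * ψ (vc (pr b (sl j z))) / tt (K := K) y := by
  have hpos := hz.pm_pos (by omega)
  obtain ⟨h1, -, -, -, h2⟩ := (hSC hodd hn b j hj).2.2.2 y z
  have e1 : ψ (rw2 b (sl j (scj j y z))) = ψ (vc (pr b (sl j z))) := by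
    have e2 : rw2 b (sl j (scj j y z)) = fun e => ((Real.exp (-(y e.1)) : ℝ) : ℂ) •
      gl ((Real.exp (-(y j)) : ℝ) : ℂ) 0 0 ((Real.exp (y j) : ℝ) : ℂ)
        (vc (pr b (sl j z)) e) := funext h1
    have e3 : (fun e => gl ((Real.exp (-(y j)) : ℝ) : ℂ) 0 0 ((Real.exp (y j) : ℝ) : ℂ)
        (vc (pr b (sl j z)) e)) = (fun e => gl ((Real.exp (-(y j)) : ℝ) : ℂ) ((0 : ℝ) : ℂ)
          ((0 : ℝ) : ℂ) ((Real.exp (y j) : ℝ) : ℂ) (vc (pr b (sl j z)) e)) := by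
      simp only [Complex.ofReal_zero]
    have hS := SYM_gl (SYM_vc (pr b (sl j z))) (Real.exp (-(y j))) 0 0 (Real.exp (y j))
    have hdet : Real.exp (-(y j)) * Real.exp (y j) - 0 * 0 = 1 := by
      rw [← Real.exp_add]; simp
    have hpm : 0 < pm (fun e => gl ((Real.exp (-(y j)) : ℝ) : ℂ) ((0 : ℝ) : ℂ)
          ((0 : ℝ) : ℂ) ((Real.exp (y j) : ℝ) : ℂ) (vc (pr b (sl j z)) e)) := by
      rw [Pool.Agent.Y714.KF.pm_gl]
      have : ((Real.exp (-(y j)) : ℝ) : ℂ) * ((Real.exp (y j) : ℝ) : ℂ) -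
          ((0 : ℝ) : ℂ) * ((0 : ℝ) : ℂ) = 1 := by
        rw [← Complex.ofReal_mul, ← Complex.ofReal_mul, ← Complex.ofReal_sub, hdet]
        simp
      rw [this]
      simpa using hpos
    rw [e2]
    have s1 := hψ.2.2.1 _ hS hpm (fun e => ((Real.exp (-(y e.1)) : ℝ) : ℂ))
      (fun e => by
        rw [Complex.ofReal_ne_zero]; exact (Real.exp_pos _).ne')
      (fun i σ => (Complex.conj_ofReal _).symm)
    have s2 := hψ.2.2.2 (vc (pr b (sl j z))) (SYM_vc _) hpos (Real.exp (-(y j))) 0 0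
      (Real.exp (y j)) (by rw [hdet]; exact one_ne_zero)
    rw [← s2, ← s1]
    simp only [Complex.ofReal_zero]
  rw [(h2 hpos).1, e1]
  ring

theorem ysc_pos (j : s) (y : s → ℝ) (k : Jx K j) : 0 < ysc j y k := Real.exp_pos _

theorem ysc_ge (j : s) (y : s → ℝ) {X : ℝ} (hX : 1 ≤ X) (h1 : X ≤ Real.exp (-(y j)))
    (h2 : ∀ i, i ≠ j → X ≤ Real.exp (y i + y j)) (k : Jx K j) : X ≤ ysc j y k := by
  have hy : y j ≤ 0 := by
    have : (0 : ℝ) ≤ -(y j) := by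
      rw [← Real.one_le_exp_iff]
      exact hX.trans h1
    linarith
  obtain ⟨k, hk⟩ := k
  rcases k with k | k
  · exact h2 k.1 hk
  · refine (h2 k.1 hk).trans ?_
    unfold ysc
    refine Real.exp_le_exp.2 ?_
    show y k.1 + y j ≤ y k.1 + -(y j)
    linarith

theorem sl_dvd {j : s} (d : ℤ) {z z' : Jx K j → ℤ} (h : ∀ i, d ∣ z i - z' i)
    (i : Ix K ⊕ Ix K) : d ∣ sl j z i - sl j z' i := by
  unfold sl
  by_cases hi : cm i = j
  · rw [dif_pos hi, dif_pos hi, sub_self]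
    exact dvd_zero _
  · rw [dif_neg hi, dif_neg hi]
    exact h _

theorem gcj (h1 : S_RJM K) (h2 : S_MIB) (h3 : S_ETW) (h4 : S_LRJ K) (h5 : S_OPJ K)
    (h6 : S_PAD K) (h7 : S_LEJ K) (h7' : S_LEV K) (h8 : S_SCJ K) : S_GCJ K := by
  classical
  intro hodd hn I b hb κ i₀ j hj hκ S₀ hS₀ ψ hψ φ hφ a ha η hη
  have hn3 : 3 ≤ dg K := by omega
  have hn2 : 2 ≤ dg K := by omega
  obtain ⟨δ, P₁, L₀, hδ, hL₀, hR⟩ := h1 hodd hn3 I b hb κ i₀ j hj hκ (η / 4) (by positivity)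
  obtain ⟨hopen, hbdd⟩ := h5 hodd hn3 b κ i₀ j hj δ hδ
  obtain ⟨C, hC, hLR⟩ := h4 hodd hn I b hb j hj
  have hT : ∀ p : ℕ, ∃ T : Set (Jx K j → ZMod p), p.Prime →
      ((∀ z : Jx K j → ℤ, IN (pr b (sl j z)) →
        (Loc p (cf I) (LT (pr b (sl j z))) ↔ (fun i => (z i : ZMod p)) ∈ T)) ∧
      (Tᶜ.ncard : ℝ) ≤ C * (p : ℝ) ^ (2 * dg K - 4)) := by
    intro p
    by_cases hp : p.Prime
    · obtain ⟨T, hT⟩ := hLR p hp
      exact ⟨T, fun _ => hT⟩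
    · exact ⟨∅, fun h => absurd h hp⟩
  choose T hT using hT
  obtain ⟨hslc, hcard, hprod, hsc⟩ := h8 hodd hn3 b j hj
  have hcard2 : Fintype.card (Jx K j) - 2 = 2 * dg K - 4 := by omega
  have hbD : Bornology.IsBounded (Dmj b κ i₀ j δ) := hbdd.subset (Dmj_subset b κ i₀ j δ)
  obtain ⟨C', hC', hMIB⟩ := h2 (Jx K j) (Dmj b κ i₀ j δ) C hbD (by omega)
  have hM := hMIB T (fun p hp => by rw [hcard2]; exact (hT p hp).2)
  -- the bound for the small primes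
  obtain ⟨N, hN⟩ := exists_nat_gt (C' / (η / 4))
  obtain ⟨P₀, hP₁, hPS, hPN, hP1⟩ : ∃ P₀ : ℕ, P₁ ≤ P₀ ∧ (∀ p ∈ S₀, p ≤ P₀) ∧ N ≤ P₀ ∧
      1 ≤ P₀ := by
    refine ⟨N + P₁ + S₀.sup id + 1, by omega, fun p hp => ?_, by omega, by omega⟩
    have : p ≤ S₀.sup id := Finset.le_sup (f := id) hp
    omega
  have hP1' : (1 : ℝ) ≤ P₀ := by exact_mod_cast hP1
  have hP0pos : (0 : ℝ) < P₀ := by linarith
  have hCP : C' / P₀ ≤ η / 4 := by
    rw [div_le_iff₀ hP0pos]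
    rw [div_lt_iff₀ (by positivity)] at hN
    have : (N : ℝ) ≤ P₀ := by exact_mod_cast hPN
    nlinarith
  -- the region
  have hpmpos : ∀ u ∈ Dmj b κ i₀ j δ, 0 < pm (rw2 b (sl j u)) := fun u hu =>
    Pool.Agent.Y714.KF.pm_pos (by rw [card_Em]; omega) hu.2.2.2.1
  obtain ⟨hΨc, -⟩ := h7' hodd hn3 ψ hψ b
  have hlev := h7 hodd hn3 ψ hψ b j hj
  obtain ⟨⟨mψ, Mψ, hmψ, hbψ⟩, -, -, -⟩ := id hψ
  have hNDs : ∀ (y : s → ℝ) (z : Jx K j → ℤ), scj j y z ∈ Dmj b κ i₀ j δ →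
      ND (pr b (sl j z)) := fun y z h => ND_scj h8 hodd hn3 b κ i₀ j hj y z h
  obtain ⟨ℓ, L, hL, hE⟩ := h3 (Jx K j) (Dmj b κ i₀ j δ)
    (fun u => pm (rw2 b (sl j u)) * ψ (rw2 b (sl j u))) a
    {Y | ∃ y : s → ℝ, Y = ysc j y} (fun z => ND (pr b (sl j z)))
    (fun p z => Loc p (cf I) (LT (pr b (sl j z)))) T S₀ (fun p z => φ p (pr b (sl j z)))
    hbD hopen
    (measure_mono_null (frontier_sub hopen (Dmj_subset b κ i₀ j δ)) (hκ δ hδ))
    (hΨc.comp hslc.continuousOn fun u hu => hpmpos u hu)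
    (fun u hu => mul_pos (hpmpos u hu)
      (lt_of_lt_of_le hmψ (hbψ _ (SYM_rw2 b _) (hpmpos u hu)).1))
    (fun c hc => measure_mono_null (fun u hu => (⟨hpmpos u hu.1, hu.2⟩ :
      0 < pm (rw2 b (sl j u)) ∧ pm (rw2 b (sl j u)) * ψ (rw2 b (sl j u)) = c)) (hlev c hc))
    ha hS₀
    (by
      rintro Y ⟨y, rfl⟩ z _ hz
      exact hNDs y z hz)
    (fun p hp z hz => (hT p hp).1 z (ND.ind hz hn2))
    (fun p hp => by
      obtain ⟨⟨m', M', hm', h'⟩, -⟩ := hφ p hp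
      exact ⟨m', M', hm', fun z hz => h' _ hz⟩)
    (fun p hp ε hε => by
      obtain ⟨k, hk⟩ := h6 hodd hn3 p (hS₀ p hp) (φ p) (hφ p hp) I b hb ε hε
      exact ⟨k, fun z z' hz hz' hl hl' hd => hk (sl j z) (sl j z') hz hz' hl hl'
        (fun i => sl_dvd _ hd i)⟩)
    P₀ hPS (η / 4) (by positivity)
  refine ⟨ℓ / 2, max (max L L₀) (max P₀ 1), fun X y hX hyj hyi => ?_⟩
  have hXL : L ≤ X := (le_max_left _ _).trans ((le_max_left _ _).trans hX)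
  have hXL₀ : L₀ ≤ X := (le_max_right _ _).trans ((le_max_left _ _).trans hX)
  have hXP : (P₀ : ℝ) ≤ X := (le_max_left _ _).trans ((le_max_right _ _).trans hX)
  have hX1 : (1 : ℝ) ≤ X := (le_max_right _ _).trans ((le_max_right _ _).trans hX)
  have hYX : ∀ k : Jx K j, X ≤ ysc j y k := ysc_ge j y hX1 hyj hyi
  have hYpos : ∀ k : Jx K j, 0 < ysc j y k := ysc_pos j y
  have hr := hR y (hXL₀.trans hyj) (fun i hi => hXL₀.trans (hyi i hi))
    (fun M => (∀ p : ℕ, p.Prime → (p : ℝ) ≤ X → Loc p (cf I) M) ∧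
      TL S₀ ψ φ (a * tt (K := K) y) M)
    (fun M hM p hp hpP => hM.1 p hp (by
      have : (p : ℝ) ≤ P₀ := by exact_mod_cast hpP.trans hP₁
      linarith))
  have hE' := hE (ysc j y) ⟨y, rfl⟩ (fun k => hXL.trans (hYX k))
  have hF := hM P₀ X (ysc j y) hP1' hYX hYpos
  rw [hprod y] at hE' hF
  set W := Real.exp (-(2 * y j)) * tt (K := K) y with hW
  have htt : 0 < tt (K := K) y := Real.exp_pos _
  have hexp : 0 < Real.exp (-(2 * y j)) := Real.exp_pos _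
  have hWpos : 0 < W := mul_pos hexp htt
  set A : ℝ := ({M ∈ SY κ i₀ (cf I) y | (∀ p : ℕ, p.Prime → (p : ℝ) ≤ X → Loc p (cf I) M) ∧
      TL S₀ ψ φ (a * tt (K := K) y) M}.ncard : ℝ) with hA
  set Z := {z : Jx K j → ℤ | scj j y z ∈ Dmj b κ i₀ j δ ∧
    ((∀ p : ℕ, p.Prime → (p : ℝ) ≤ X → Loc p (cf I) (LT (pr b (sl j z)))) ∧
      TL S₀ ψ φ (a * tt (K := K) y) (LT (pr b (sl j z))))} with hZ
  set E := {z : Jx K j → ℤ | (fun i => (z i : ℝ) / ysc j y i) ∈ Dmj b κ i₀ j δ ∧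
    (∀ p : ℕ, p.Prime → p ≤ P₀ → Loc p (cf I) (LT (pr b (sl j z)))) ∧
      pm (rw2 b (sl j fun i => (z i : ℝ) / ysc j y i)) *
        ψ (rw2 b (sl j fun i => (z i : ℝ) / ysc j y i)) *
          ∏ p ∈ S₀, φ p (pr b (sl j z)) ≤ a} with hEdef
  set F := {z : Jx K j → ℤ | (fun i => (z i : ℝ) / ysc j y i) ∈ Dmj b κ i₀ j δ ∧
    ∃ p : ℕ, p.Prime ∧ (P₀ : ℝ) < p ∧ (p : ℝ) ≤ X ∧ (fun i => (z i : ZMod p)) ∉ T p} with hFdef
  have hfin : {z : Jx K j → ℤ | (fun i => (z i : ℝ) / ysc j y i) ∈ Dmj b κ i₀ j δ}.Finite :=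
    finite_scaled hbD _ hYpos
  have hEfin : E.Finite := hfin.subset fun z hz => hz.1
  have hFfin : F.Finite := hfin.subset fun z hz => hz.1
  have hZfin : Z.Finite := hfin.subset fun z hz => hz.1
  have hkey : ∀ z : Jx K j → ℤ, scj j y z ∈ Dmj b κ i₀ j δ →
      (TL S₀ ψ φ (a * tt (K := K) y) (LT (pr b (sl j z))) ↔
        pm (rw2 b (sl j fun i => (z i : ℝ) / ysc j y i)) *
          ψ (rw2 b (sl j fun i => (z i : ℝ) / ysc j y i)) *
            ∏ p ∈ S₀, φ p (pr b (sl j z)) ≤ a) := by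
    intro z hz
    have hnd := hNDs y z hz
    rw [TL_iff hodd hn2 hψ hφ hnd]
    have e := psi_scj h8 hodd hn3 b j hj y z hψ hnd
    have e' : pm (rw2 b (sl j fun i => (z i : ℝ) / ysc j y i)) *
          ψ (rw2 b (sl j fun i => (z i : ℝ) / ysc j y i)) =
        pm (vc (pr b (sl j z))) * ψ (vc (pr b (sl j z))) / tt (K := K) y := e
    rw [e', div_mul_eq_mul_div, div_le_iff₀ htt]
    unfold tw
    rw [mul_assoc]
  have hZE : Z ⊆ E := by
    rintro z ⟨hz1, hz2, hz3⟩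
    refine ⟨hz1, fun p hp hpP => hz2 p hp ?_, (hkey z hz1).1 hz3⟩
    have : (p : ℝ) ≤ P₀ := by exact_mod_cast hpP
    linarith
  have hEZF : E ⊆ Z ∪ F := by
    rintro z ⟨hz1, hz2, hz3⟩
    by_cases hall : ∀ p : ℕ, p.Prime → (p : ℝ) ≤ X → Loc p (cf I) (LT (pr b (sl j z)))
    · exact Or.inl ⟨hz1, hall, (hkey z hz1).2 hz3⟩
    · right
      push Not at hall
      obtain ⟨p, hp, hpX, hpl⟩ := hall
      refine ⟨hz1, p, hp, ?_, hpX, fun hmem => hpl ?_⟩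
      · by_contra hcon
        push Not at hcon
        exact hpl (hz2 p hp (by exact_mod_cast hcon))
      · exact ((hT p hp).1 z (ND.ind (hNDs y z hz1) hn2)).2 hmem
  have c1 : (Z.ncard : ℝ) ≤ E.ncard := by exact_mod_cast Set.ncard_le_ncard hZE hEfin
  have c2 : (E.ncard : ℝ) ≤ Z.ncard + F.ncard := by
    have s1 := Set.ncard_le_ncard hEZF (hZfin.union hFfin)
    have s2 := Set.ncard_union_le Z F
    exact_mod_cast s1.trans s2
  have c3 : (F.ncard : ℝ) ≤ η / 4 * W := by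
    refine hF.trans ?_
    calc C' * W / P₀ = C' / P₀ * W := by ring
      _ ≤ η / 4 * W := by gcongr
  have c4 : |(E.ncard : ℝ) - ℓ * W| ≤ η / 4 * W := by
    have e : (E.ncard : ℝ) - ℓ * W = ((E.ncard : ℝ) / W - ℓ) * W := by
      field_simp
    rw [e, abs_mul, abs_of_pos hWpos]
    gcongr
  have c5 : |2 * Real.exp (-(2 * y j)) * A - (Z.ncard : ℝ)| ≤ η / 4 * W := by
    have e : η / 4 * Real.exp (-(2 * y j)) * tt (K := K) y = η / 4 * W := by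
      rw [hW]; ring
    rw [← e]
    exact hr
  have c6 : |2 * Real.exp (-(2 * y j)) * A - ℓ * W| ≤ 3 * (η / 4 * W) := by
    rw [abs_le] at c4 c5 ⊢
    obtain ⟨a1, a2⟩ := c4
    obtain ⟨b1, b2⟩ := c5
    constructor <;> linarith
  have e5 : A / tt (K := K) y - ℓ / 2 =
      (2 * Real.exp (-(2 * y j)) * A - ℓ * W) / (2 * W) := by
    rw [hW]
    field_simp
  rw [e5, abs_div, abs_of_pos (by positivity : (0 : ℝ) < 2 * W), div_le_iff₀ (by positivity)]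
  refine c6.trans ?_
  nlinarith [mul_pos hη hWpos]

end

end Pool.Agent.Y319.KE
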